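import Pool.Agent.R583.UR.NoRefl

/-!
# `ZFU_R` + Collection does not prove `RP`

There is a model of `ZFU_R` + Collection in which an instance of `RP` fails.
-/

namespace Pool.Agent.Results.MP_b1de93_lc.CollectionNoRP

open Pool.Agent.R583.UR

/-- Some model of `ZFU_R` with Collection does not satisfy the scheme `RP`. -/
theorem result : ∃ (M : Type 1) (_ : LU.Structure M), ZFUR M ∧ Collection M ∧ ¬ RP M :=
  ⟨W.{0}, inferInstance, zfur_W, collection_W, not_rp_W⟩

end Pool.Agent.Results.MP_b1de93_lc.CollectionNoRP
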